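import Pool.Agent.H418R3.EF.Stmts

/-!
# Project H418-EF, TaskFrame
-/

set_option autoImplicit false

namespace Pool.Agent.H16R3.Frame

open Pool.Agent.H418R3.EF

/-- the data -/
structure Coc (G : Type) [Group G] {X : Type} [MeasurableSpace X] [MulAction G X] {Γ : Type}
    [Group Γ] (P : Set X) (β : X → X → Γ) (ℓ : X → ℕ) : Prop where
  c : ∀ x ∈ P, ∀ y ∈ P, ∀ z ∈ P, (∃ g : G, g • x = y) → (∃ g : G, g • y = z) →
      β z x = β z y * β y x
  s : ∀ x ∈ P, ∀ y ∈ P, (∃ g : G, g • x = y) → β y x = 1 → ℓ x = ℓ y → x = y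
  m1 : ∀ (g : G) (γ : Γ), MeasurableSet {x | x ∈ P ∧ g • x ∈ P ∧ β (g • x) x = γ}
  m2 : ∀ k : ℕ, MeasurableSet {x | x ∈ P ∧ ℓ x = k}

section
variable {G : Type} [Group G] {X : Type} [MeasurableSpace X] [MulAction G X]
  {P : Set X} {Γ : Type} [Group Γ] {β : X → X → Γ} {ℓ : X → ℕ} {e : Γ → ℕ}

/-- the relation on `P × Γ` -/
def R (G : Type) [Group G] {X : Type} [MulAction G X] {P : Set X} {Γ : Type} [Group Γ]
    (β : X → X → Γ) (z w : P × Γ) : Prop :=
  (∃ g : G, g • (z.1 : X) = w.1) ∧ w.2 = β w.1 z.1 * z.2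

/-- the key -/
def key {X : Type} {P : Set X} {Γ : Type} (ℓ : X → ℕ) (e : Γ → ℕ) (z : P × Γ) : ℕ :=
  Nat.pair (e z.2) (ℓ z.1)

theorem β1 (h : Coc G P β ℓ) {x : X} (hx : x ∈ P) : β x x = 1 := by
  have := h.c x hx x hx x hx ⟨1, one_smul _ _⟩ ⟨1, one_smul _ _⟩
  exact (mul_eq_left.1 this.symm)

theorem R_refl (h : Coc G P β ℓ) (z : P × Γ) : R G β z z :=
  ⟨⟨1, one_smul _ _⟩, by rw [β1 h z.1.2, one_mul]⟩

theorem sy {x y : X} (h : ∃ g : G, g • x = y) : ∃ g : G, g • y = x := by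
  obtain ⟨g, rfl⟩ := h
  exact ⟨g⁻¹, inv_smul_smul _ _⟩

theorem tr {x y z : X} (h : ∃ g : G, g • x = y) (h' : ∃ g : G, g • y = z) :
    ∃ g : G, g • x = z := by
  obtain ⟨g, rfl⟩ := h
  obtain ⟨g', rfl⟩ := h'
  exact ⟨g' * g, mul_smul _ _ _⟩

theorem R_symm (h : Coc G P β ℓ) {z w : P × Γ} (hR : R G β z w) : R G β w z := by
  refine ⟨sy hR.1, ?_⟩
  have h1 := h.c z.1 z.1.2 w.1 w.1.2 z.1 z.1.2 hR.1 (sy hR.1)
  rw [β1 h z.1.2] at h1
  rw [hR.2, ← mul_assoc, ← h1, one_mul]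

theorem R_trans (h : Coc G P β ℓ) {z w v : P × Γ} (hR : R G β z w) (hR' : R G β w v) :
    R G β z v := by
  refine ⟨tr hR.1 hR'.1, ?_⟩
  rw [hR'.2, hR.2, h.c z.1 z.1.2 w.1 w.1.2 v.1 v.1.2 hR.1 hR'.1, mul_assoc]

theorem key_inj (h : Coc G P β ℓ) (he : Function.Injective e) {z w : P × Γ} (hR : R G β z w)
    (hk : key ℓ e z = key ℓ e w) : z = w := by
  unfold key at hk
  obtain ⟨h1, h2⟩ := Nat.pair_eq_pair.1 hk
  have h3 := he h1
  have h4 : β w.1 z.1 = 1 := by
    have h5 := hR.2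
    rw [← h3] at h5
    exact (mul_eq_right.1 h5.symm)
  exact Prod.ext (Subtype.ext (h.s z.1 z.1.2 w.1 w.1.2 hR.1 h4 h2)) h3

/-- the minimal elements -/
def YY (G : Type) [Group G] {X : Type} [MulAction G X] {P : Set X} {Γ : Type} [Group Γ]
    (β : X → X → Γ) (ℓ : X → ℕ) (e : Γ → ℕ) : Set (P × Γ) :=
  {w | ∀ w', R G β w w' → key ℓ e w ≤ key ℓ e w'}

theorem exists_min (h : Coc G P β ℓ) (z : P × Γ) : ∃ w ∈ YY G β ℓ e, R G β z w := by
  classical
  have hex : ∃ n, ∃ w, R G β z w ∧ key ℓ e w = n := ⟨_, z, R_refl h z, rfl⟩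
  obtain ⟨w, hw1, hw2⟩ := Nat.find_spec hex
  refine ⟨w, fun w' hw' => ?_, hw1⟩
  rw [hw2]
  exact Nat.find_min' hex ⟨w', R_trans h hw1 hw', rfl⟩

theorem uniq (h : Coc G P β ℓ) (he : Function.Injective e) {w w' : P × Γ}
    (hw : w ∈ YY G β ℓ e) (hw' : w' ∈ YY G β ℓ e) (hR : R G β w w') : w = w' :=
  key_inj h he hR (le_antisymm (hw _ hR) (hw' _ (R_symm h hR)))

/-- the least element of the class -/
noncomputable def mm (h : Coc G P β ℓ) (e : Γ → ℕ) (z : P × Γ) : YY (P := P) G β ℓ e :=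
  ⟨(exists_min (e := e) h z).choose, (exists_min (e := e) h z).choose_spec.1⟩

theorem R_mm (h : Coc G P β ℓ) (z : P × Γ) : R G β z (mm h e z).1 :=
  (exists_min (e := e) h z).choose_spec.2

theorem mm_eq (h : Coc G P β ℓ) (he : Function.Injective e) (z : P × Γ)
    (w : YY (P := P) G β ℓ e) (hR : R G β z w.1) : mm h e z = w :=
  Subtype.ext (uniq h he (mm h e z).2 w.2 (R_trans h (R_symm h (R_mm h z)) hR))

theorem mm_congr (h : Coc G P β ℓ) (he : Function.Injective e) {z w : P × Γ}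
    (hR : R G β z w) : mm h e z = mm h e w :=
  mm_eq h he z _ (R_trans h hR (R_mm h w))

theorem R_of_mm (h : Coc G P β ℓ) {z w : P × Γ}
    (hR : mm h e z = mm h e w) : R G β z w :=
  R_trans h (R_mm (e := e) h z) (by rw [hR]; exact R_symm h (R_mm h w))

variable [Countable G] [Countable Γ] [MeasurableSpace Γ] [DiscreteMeasurableSpace Γ]

theorem meas_sat (hG : ∀ g : G, Measurable (fun x : X => g • x)) (hP : MeasurableSet P)
    (h : Coc G P β ℓ) {B : Set (P × Γ)} (hB : MeasurableSet B) :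
    MeasurableSet {z : P × Γ | ∃ w ∈ B, R G β z w} := by
  have e1 : {z : P × Γ | ∃ w ∈ B, R G β z w} = ⋃ (g : G), ⋃ (c : Γ), ⋃ (d : Γ),
      ({z : P × Γ | (z.1 : X) ∈ {x | x ∈ P ∧ g • x ∈ P ∧ β (g • x) x = c} ∩
        (fun x : X => g • x) ⁻¹' (Subtype.val '' {y : P | (y, c * d) ∈ B})} ∩
        {z | z.2 = d}) := by
    ext z
    simp only [Set.mem_setOf_eq, Set.mem_iUnion, Set.mem_inter_iff, Set.mem_preimage,
      Set.mem_image, Subtype.exists, exists_and_right, exists_eq_right]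
    constructor
    · rintro ⟨w, hw, ⟨g, hg⟩, hw2⟩
      refine ⟨g, β w.1 z.1, z.2, ⟨⟨z.1.2, ?_, ?_⟩, ?_, ?_⟩, rfl⟩
      · rw [hg]; exact w.1.2
      · rw [hg]
      · rw [hg]; exact w.1.2
      · rw [← hw2]
        have : (⟨g • (z.1 : X), by rw [hg]; exact w.1.2⟩ : P) = w.1 := Subtype.ext hg
        rw [this]
        exact hw
    · rintro ⟨g, c, d, ⟨⟨_, _, hc⟩, hp, hb⟩, hd⟩
      refine ⟨_, hb, ⟨g, rfl⟩, ?_⟩
      show c * d = β (g • (z.1 : X)) z.1 * z.2
      rw [hc, hd]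
  rw [e1]
  refine MeasurableSet.iUnion fun g => MeasurableSet.iUnion fun c => MeasurableSet.iUnion fun d => ?_
  refine MeasurableSet.inter ?_ (measurable_snd (MeasurableSet.singleton d))
  have h2 : MeasurableSet ({x | x ∈ P ∧ g • x ∈ P ∧ β (g • x) x = c} ∩
        (fun x : X => g • x) ⁻¹' (Subtype.val '' {y : P | (y, c * d) ∈ B})) := by
    refine (h.m1 g c).inter (hG g ?_)
    apply MeasurableSet.subtype_image hP
    have : Measurable (fun y : P => (y, c * d)) := measurable_id.prodMk measurable_const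
    exact this hB
  exact (measurable_subtype_coe.comp measurable_fst) h2

theorem meas_key (h : Coc G P β ℓ) : Measurable (key (P := P) ℓ e) := by
  apply measurable_to_countable'
  intro n
  have e1 : key (P := P) ℓ e ⁻¹' {n} = {z | z.2 ∈ e ⁻¹' {n.unpair.1}} ∩
      {z | (z.1 : X) ∈ {x | x ∈ P ∧ ℓ x = n.unpair.2}} := by
    ext z
    simp only [key, Set.mem_preimage, Set.mem_singleton_iff, Set.mem_inter_iff, Set.mem_setOf_eq]
    constructor
    · intro hz
      rw [← hz, Nat.unpair_pair]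
      exact ⟨rfl, z.1.2, rfl⟩
    · rintro ⟨h1, _, h2⟩
      rw [h1, h2, Nat.pair_unpair]
  rw [e1]
  exact (measurable_snd (MeasurableSet.of_discrete)).inter
    ((measurable_subtype_coe.comp measurable_fst) (h.m2 _))

theorem meas_YY (hG : ∀ g : G, Measurable (fun x : X => g • x)) (hP : MeasurableSet P)
    (h : Coc G P β ℓ) : MeasurableSet (YY (P := P) G β ℓ e) := by
  have e1 : YY (P := P) G β ℓ e = (⋃ n : ℕ, (key (P := P) ℓ e ⁻¹' {n} ∩
      {z | ∃ w ∈ key (P := P) ℓ e ⁻¹' (Set.Iio n), R G β z w}))ᶜ := by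
    ext z
    simp only [YY, Set.mem_setOf_eq, Set.mem_compl_iff, Set.mem_iUnion, Set.mem_inter_iff,
      Set.mem_preimage, Set.mem_singleton_iff, Set.mem_Iio, not_exists, not_and]
    constructor
    · rintro hz n rfl w hw hR
      exact absurd (hz w hR) (not_le.2 hw)
    · intro hz w hR
      by_contra hc
      exact hz _ rfl w (not_le.1 hc) hR
  rw [e1]
  refine (MeasurableSet.iUnion fun n => ?_).compl
  exact (meas_key h (MeasurableSet.singleton n)).inter
    (meas_sat hG hP h (meas_key h measurableSet_Iio))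

theorem meas_mm (hG : ∀ g : G, Measurable (fun x : X => g • x)) (hP : MeasurableSet P)
    (h : Coc G P β ℓ) (he : Function.Injective e) : Measurable (mm h e) := by
  intro s hs
  have e1 : mm h e ⁻¹' s = {z | ∃ w ∈ (Subtype.val '' s), R G β z w} := by
    ext z
    constructor
    · intro hz
      exact ⟨_, ⟨_, hz, rfl⟩, R_mm h z⟩
    · rintro ⟨w, ⟨y, hy, rfl⟩, hR⟩
      show mm h e z ∈ s
      rw [mm_eq h he z y hR]
      exact hy
  rw [e1]
  exact meas_sat hG hP h (MeasurableSet.subtype_image (meas_YY hG hP h) hs)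

end

theorem t : TaskFrame := by
  intro G _ _ X _ _ _ hG P hP hcoc
  obtain ⟨Γ, _, _, β, ℓ, hc, hs, hm1, hm2⟩ := hcoc
  have h : Coc G P β ℓ := ⟨hc, hs, hm1, hm2⟩
  letI : MeasurableSpace Γ := ⊤
  haveI : DiscreteMeasurableSpace Γ := ⟨fun _ => trivial⟩
  obtain ⟨e, he⟩ := exists_injective_nat Γ
  haveI : StandardBorelSpace P := hP.standardBorel
  have hY := meas_YY (e := e) hG hP h
  haveI : StandardBorelSpace (YY (P := P) G β ℓ e) := hY.standardBorel
  have hmm := meas_mm hG hP h he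
  have act_R : ∀ (x : P) (γ : Γ) (z : P × Γ) (d : Γ), R G β (x, γ) z → R G β (x, γ * d) (z.1, z.2 * d) := by
    intro x γ z d hR
    exact ⟨hR.1, by rw [hR.2]; exact mul_assoc _ _ _⟩
  letI act : MulAction Γ (YY (P := P) G β ℓ e) :=
    { smul := fun γ' z => mm h e (z.1.1, z.1.2 * γ'⁻¹)
      one_smul := fun z => by
        show mm h e (z.1.1, z.1.2 * 1⁻¹) = z
        apply mm_eq h he
        rw [inv_one, mul_one]
        exact R_refl h _
      mul_smul := fun a b z => by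
        show mm h e (z.1.1, z.1.2 * (a * b)⁻¹) =
          mm h e ((mm h e (z.1.1, z.1.2 * b⁻¹)).1.1, (mm h e (z.1.1, z.1.2 * b⁻¹)).1.2 * a⁻¹)
        apply mm_congr h he
        have h1 := act_R _ _ _ a⁻¹ (R_mm (e := e) h (z.1.1, z.1.2 * b⁻¹))
        rw [mul_assoc, ← mul_inv_rev] at h1
        exact h1 }
  have smul_def : ∀ (γ' : Γ) (z : YY (P := P) G β ℓ e),
      γ' • z = mm h e (z.1.1, z.1.2 * γ'⁻¹) := fun _ _ => rfl
  refine ⟨YY (P := P) G β ℓ e, inferInstance, inferInstance, fun x y => ∃ γ : Γ, γ • x = y,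
    ⟨Γ, inferInstance, inferInstance, act, ?_, ?_, fun x y => Iff.rfl⟩, ?_, ?_⟩
  · intro γ
    refine hmm.comp ?_
    exact (measurable_fst.comp measurable_subtype_coe).prodMk
      (((measurable_of_countable (fun d : Γ => d * γ⁻¹)).comp measurable_snd).comp
        measurable_subtype_coe)
  · intro γ y hy
    rw [smul_def] at hy
    have h1 := R_mm (e := e) h (y.1.1, y.1.2 * γ⁻¹)
    rw [hy] at h1
    have h2 := h1.2
    simp only [β1 h y.1.1.2, one_mul] at h2
    have h3 := (mul_eq_left.1 h2.symm)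
    exact inv_eq_one.1 h3
  · refine ⟨fun x => mm h e (x, 1), hmm.comp (measurable_id.prodMk measurable_const), ?_⟩
    intro x y
    constructor
    · intro hxy
      refine ⟨β y x, ?_⟩
      rw [smul_def]
      apply mm_congr h he
      have h1 := act_R _ _ _ (β y x)⁻¹ (R_mm (e := e) h (x, 1))
      refine R_trans h (R_symm h h1) ⟨hxy, ?_⟩
      simp
    · rintro ⟨γ, hγ⟩
      rw [smul_def] at hγ
      have h1 := act_R _ _ _ γ⁻¹ (R_mm (e := e) h (x, 1))
      exact (R_trans h h1 (R_of_mm h hγ)).1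
  · refine ⟨fun z => z.1.1, measurable_fst.comp measurable_subtype_coe, ?_⟩
    intro z w
    constructor
    · rintro ⟨γ, rfl⟩
      rw [smul_def]
      exact (R_mm (e := e) h (z.1.1, z.1.2 * γ⁻¹)).1
    · intro hzw
      refine ⟨(w.1.2)⁻¹ * β w.1.1 z.1.1 * z.1.2, ?_⟩
      rw [smul_def]
      apply mm_eq h he
      refine ⟨hzw, ?_⟩
      simp only [mul_inv_rev, inv_inv]
      group

end Pool.Agent.H16R3.Frame
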