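import Mathlib
import Pool.Agent.H74R6.LW.Stmts

/-!
# Project LW (helper74), task E: the degree of the splitting field of `ff g W q`
-/

set_option autoImplicit false

open Polynomial Finset

namespace Pool.Agent.H16R3.LWE

open Pool.Agent.H74R6.LW (ff)

theorem num_den (a : ℚ) (q : ℕ) (hq : 1 ≤ q) :
    (a.num : ℚ) * (a.den : ℚ) ^ (q - 1) = a * (a.den : ℚ) ^ q := by
  obtain ⟨k, rfl⟩ : ∃ k, q = k + 1 := ⟨q - 1, by omega⟩
  have h : (a.num : ℚ) = a * a.den := by
    rw [Rat.mul_den_eq_num]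
  rw [h, Nat.add_sub_cancel, pow_succ]
  ring

theorem ne_zero' {R : Type*} [CommRing R] [Nontrivial R] (q : ℕ) (hq : 1 ≤ q) (c : R) :
    (X ^ q - C c : R[X]) ≠ 0 := (monic_X_pow_sub_C c (by omega)).ne_zero

theorem key (K : Type*) [Field K] [Algebra ℚ K] (G : ℚ[X]) (hG : G ≠ 0) (W : Finset ℚ) (q : ℕ)
    (hq : 1 ≤ q) (h : IsSplittingField ℚ K (G * (X ^ q - 1) * ∏ a ∈ W, (X ^ q - C a))) :
    IsSplittingField ℚ K (G * (X ^ q - 1) *
      ∏ a ∈ W, (X ^ q - C ((a.num : ℚ) * (a.den : ℚ) ^ (q - 1)))) := by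
  have h1ne : (X ^ q - 1 : ℚ[X]) ≠ 0 := by
    have := ne_zero' (R := ℚ) q hq 1
    simpa using this
  have hf1 : (G * (X ^ q - 1) * ∏ a ∈ W, (X ^ q - C a) : ℚ[X]) ≠ 0 :=
    mul_ne_zero (mul_ne_zero hG h1ne) (Finset.prod_ne_zero_iff.2 fun a _ => ne_zero' q hq a)
  have hf2 : (G * (X ^ q - 1) * ∏ a ∈ W, (X ^ q - C ((a.num : ℚ) * (a.den : ℚ) ^ (q - 1)))
      : ℚ[X]) ≠ 0 :=
    mul_ne_zero (mul_ne_zero hG h1ne) (Finset.prod_ne_zero_iff.2 fun a _ => ne_zero' q hq _)
  have hs := h.splits'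
  have hm1 : (G * (X ^ q - 1) * ∏ a ∈ W, (X ^ q - C a) : ℚ[X]).map (algebraMap ℚ K) ≠ 0 :=
    Polynomial.map_ne_zero hf1
  have hsG : (G * (X ^ q - 1) : ℚ[X]).map (algebraMap ℚ K) |>.Splits := by
    refine hs.of_dvd hm1 ?_
    exact (Polynomial.map_dvd _ (Dvd.intro _ rfl))
  have hsa : ∀ a ∈ W, ((X ^ q - C a : ℚ[X]).map (algebraMap ℚ K)).Splits := by
    intro a ha
    refine hs.of_dvd hm1 (Polynomial.map_dvd _ ?_)
    exact (Finset.dvd_prod_of_mem (fun a => (X ^ q - C a : ℚ[X])) ha).trans (dvd_mul_left _ _)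
  constructor
  · rw [Polynomial.map_mul, Polynomial.map_prod]
    refine hsG.mul (Splits.prod fun a ha => ?_)
    have hd : (a.den : ℚ) ≠ 0 := by exact_mod_cast a.den_nz
    have e : (X ^ q - C ((a.num : ℚ) * (a.den : ℚ) ^ (q - 1)) : ℚ[X]) =
        C ((a.den : ℚ) ^ q) * (X ^ q - C a : ℚ[X]).comp (C ((a.den : ℚ)⁻¹) * X) := by
      rw [num_den a q hq]
      simp only [sub_comp, pow_comp, X_comp, C_comp, mul_pow, mul_sub, ← mul_assoc]
      rw [← C_pow, ← C_mul, ← C_mul, ← mul_pow, mul_inv_cancel₀ hd, one_pow, C_1, one_mul,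
        mul_comm a]
    rw [e, Polynomial.map_mul, map_C, Polynomial.map_comp]
    refine Splits.C_mul ?_ _
    refine (hsa a ha).comp_of_natDegree_le_one ?_
    simp only [Polynomial.map_mul, map_C, map_X]
    exact (natDegree_C_mul_le _ _).trans (by simp)
  · rw [eq_top_iff, ← h.adjoin_rootSet', Algebra.adjoin_le_iff]
    intro x hx
    rw [mem_rootSet] at hx
    have hx2 := hx.2
    rw [map_mul, map_prod] at hx2
    have mem2 : ∀ y : K, aeval y (G * (X ^ q - 1) *
        ∏ a ∈ W, (X ^ q - C ((a.num : ℚ) * (a.den : ℚ) ^ (q - 1))) : ℚ[X]) = 0 →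
        y ∈ Algebra.adjoin ℚ ((G * (X ^ q - 1) *
        ∏ a ∈ W, (X ^ q - C ((a.num : ℚ) * (a.den : ℚ) ^ (q - 1))) : ℚ[X]).rootSet K) := by
      intro y hy
      exact Algebra.subset_adjoin ((mem_rootSet).2 ⟨hf2, hy⟩)
    rcases mul_eq_zero.1 hx2 with h0 | h0
    · apply mem2
      rw [map_mul, h0, zero_mul]
    · obtain ⟨a, ha, h1⟩ := Finset.prod_eq_zero_iff.1 h0
      have hd : (a.den : ℚ) ≠ 0 := by exact_mod_cast a.den_nz
      have hy := mem2 (algebraMap ℚ K (a.den : ℚ) * x) (by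
        rw [map_mul, map_prod]
        apply mul_eq_zero_of_right
        apply Finset.prod_eq_zero ha
        simp only [map_sub, map_pow, aeval_X, aeval_C] at h1 ⊢
        rw [num_den a q hq, map_mul, mul_pow, map_pow]
        linear_combination (algebraMap ℚ K (a.den : ℚ)) ^ q * h1)
      have hxe : x = algebraMap ℚ K ((a.den : ℚ)⁻¹) * (algebraMap ℚ K (a.den : ℚ) * x) := by
        rw [← mul_assoc, ← map_mul, inv_mul_cancel₀ hd, map_one, one_mul]
      rw [SetLike.mem_coe, hxe]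
      exact Subalgebra.mul_mem _ (Subalgebra.algebraMap_mem _ _) hy

theorem fin_eq (f1 f2 : ℚ[X])
    (h : IsSplittingField ℚ (SplittingField f1) f1 → IsSplittingField ℚ (SplittingField f1) f2) :
    Module.finrank ℚ (SplittingField f2) = Module.finrank ℚ (SplittingField f1) := by
  have h1 : @IsSplittingField ℚ (SplittingField f1) _ _ DivisionRing.toRatAlgebra f1 := by
    have h := IsSplittingField.splittingField f1
    convert h
    exact Subsingleton.elim _ _
  have h2 := h h1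
  have e := (IsSplittingField.algEquiv (SplittingField f1) f2)
  have h3 : ∀ (c : ℚ) (x : SplittingField f1), e (c • x) = c • e x := fun c x => map_rat_smul e c x
  exact (LinearEquiv.finrank_eq { e.toRingEquiv.toAddEquiv with map_smul' := h3 }).symm

theorem taskE : ∀ (g : ℤ[X]) (W : Finset ℚ) (q : ℕ), g.Monic → (∀ a ∈ W, a ≠ 0) → 1 ≤ q →
  Module.finrank ℚ (SplittingField ((ff g W q).map (Int.castRingHom ℚ))) =
  Module.finrank ℚ (SplittingField (g.map (Int.castRingHom ℚ) * (X ^ q - 1) *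
    ∏ a ∈ W, (X ^ q - C a))) := by
  intro g W q hg hW hq
  apply fin_eq
  intro h
  have hG : g.map (Int.castRingHom ℚ) ≠ 0 := (hg.map _).ne_zero
  have := key _ _ hG W q hq h
  convert this using 1
  simp [ff, Polynomial.map_prod, Polynomial.map_mul, Polynomial.map_sub, Polynomial.map_pow]

end Pool.Agent.H16R3.LWE
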