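import Mathlib
import Pool.Agent.H450R2.Sp.Table

/-!
Closed billiard orbits bouncing at spherical and flat boundary points.
-/

set_option autoImplicit false

namespace H16R3Round

open MeasureTheory Set H450Sp

noncomputable section

variable {m : ℕ}

/-- the zero set of `f` in `B` lies on the mirror -/
def Fits (f : EE m → ℝ) : Mir (Fin (m + 2)) → Set (EE m) → Prop
  | Mir.sph c R, B => 0 < R ∧ ∀ y ∈ B, f y = 0 → df y.ofLp c ⬝ᵥ df y.ofLp c = R ^ 2
  | Mir.pl ν a, B => ν ≠ 0 ∧ ∀ y ∈ B, f y = 0 → y.ofLp ⬝ᵥ ν = a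

/-- the normal of the mirror at a point of it -/
def nrm : Mir (Fin (m + 2)) → (Fin (m + 2) → ℝ) → (Fin (m + 2) → ℝ)
  | Mir.sph c _, x => df x c
  | Mir.pl ν _, _ => ν

theorem fderiv_eq_inner (f : EE m → ℝ) (x τ : EE m) : fderiv ℝ f x τ = inner ℝ (gradient f x) τ := by
  unfold gradient
  rw [InnerProductSpace.toDual_symm_apply]

/-- the gradient is a nonzero multiple of the normal of the mirror -/
theorem par_normal (f : EE m → ℝ) (B : Set (EE m)) (hB : IsOpen B) (M : Mir (Fin (m + 2)))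
    (hM : Fits f M B) (x : EE m) (hx : x ∈ B) (hfx : f x = 0) (hf : ContDiffAt ℝ 1 f x)
    (hg : gradient f x ≠ 0) :
    ∃ c : ℝ, c ≠ 0 ∧ (gradient f x).ofLp = c • nrm M x.ofLp := by
  have hfd : fderiv ℝ f x ≠ 0 := by
    intro h0
    apply hg
    unfold gradient
    rw [h0, map_zero]
  cases M with
  | sph c R =>
    obtain ⟨hR, hM⟩ := hM
    set C : EE m := WithLp.toLp 2 c with hC
    set φ : EE m → ℝ := fun y => inner ℝ (y - C) (y - C) - R ^ 2 with hφ
    have hφd : ∀ y, HasFDerivAt φ ((2 : ℝ) • (innerSL ℝ (y - C))) y := by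
      intro y
      have h1 : HasFDerivAt (fun y : EE m => y - C) (ContinuousLinearMap.id ℝ (EE m)) y :=
        (hasFDerivAt_id y).sub_const C
      have h2 := (h1.inner ℝ h1).sub_const (R ^ 2)
      refine h2.congr_fderiv ?_
      ext τ
      simp only [ContinuousLinearMap.comp_apply, ContinuousLinearMap.prod_apply,
        ContinuousLinearMap.id_apply, fderivInnerCLM_apply, _root_.smul_apply, innerSL_apply_apply,
        smul_eq_mul]
      rw [real_inner_comm (y - C) τ]
      ring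
    have hφc : ContDiffAt ℝ 1 φ x := by
      have h1 : ContDiff ℝ 1 (fun y : EE m => y - C) := contDiff_id.sub contDiff_const
      exact ((h1.inner ℝ h1).sub contDiff_const).contDiffAt
    have hev : ∀ᶠ y in nhds x, f y = 0 → φ y = 0 := by
      filter_upwards [hB.mem_nhds hx] with y hyB hfy
      have h1 := hM y hyB hfy
      have h2 : inner ℝ (y - C) (y - C) = df y.ofLp c ⬝ᵥ df y.ofLp c := by
        rw [inner_dot]; rfl
      simp only [hφ, h2, h1, sub_self]
    obtain ⟨μ, hμ⟩ := parallel_deriv f φ x hf hφc hfx hfd hev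
    rw [(hφd x).fderiv] at hμ
    have hvec : (2 : ℝ) • (x - C) = μ • gradient f x := by
      refine ext_inner_right ℝ fun τ => ?_
      have h1 := DFunLike.congr_fun hμ τ
      rw [inner_smul_left, inner_smul_left, ← fderiv_eq_inner]
      simpa [inner_sub_left] using h1
    have hxc : x - C ≠ 0 := by
      intro h0
      have h1 := hM x hx hfx
      have h2 : inner ℝ (x - C) (x - C) = df x.ofLp c ⬝ᵥ df x.ofLp c := by
        rw [inner_dot]; rfl
      rw [← h2, h0, inner_zero_left] at h1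
      exact (pow_pos hR 2).ne h1
    have hμ0 : μ ≠ 0 := by
      rintro rfl
      rw [zero_smul, smul_eq_zero] at hvec
      rcases hvec with h | h
      · norm_num at h
      · exact hxc h
    refine ⟨2 / μ, div_ne_zero two_ne_zero hμ0, ?_⟩
    have h3 : gradient f x = (2 / μ) • (x - C) := by
      have h4 : μ⁻¹ • (μ • gradient f x) = gradient f x := by
        rw [smul_smul, inv_mul_cancel₀ hμ0, one_smul]
      rw [← h4, ← hvec, smul_smul]
      congr 1
      ring
    rw [h3]
    rfl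
  | pl ν a =>
    obtain ⟨hν, hM⟩ := hM
    set N : EE m := WithLp.toLp 2 ν with hN
    set φ : EE m → ℝ := fun y => inner ℝ N y - a with hφ
    have hφd : ∀ y, HasFDerivAt φ (innerSL ℝ N) y := by
      intro y
      exact ((innerSL ℝ N).hasFDerivAt (x := y)).sub_const a
    have hφc : ContDiffAt ℝ 1 φ x := by
      exact ((innerSL ℝ N).contDiff.sub contDiff_const).contDiffAt
    have hev : ∀ᶠ y in nhds x, f y = 0 → φ y = 0 := by
      filter_upwards [hB.mem_nhds hx] with y hyB hfy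
      have h1 := hM y hyB hfy
      have h2 : inner ℝ N y = y.ofLp ⬝ᵥ ν := by
        rw [real_inner_comm, inner_dot]
      simp only [hφ, h2, h1, sub_self]
    obtain ⟨μ, hμ⟩ := parallel_deriv f φ x hf hφc hfx hfd hev
    rw [(hφd x).fderiv] at hμ
    have hvec : N = μ • gradient f x := by
      refine ext_inner_right ℝ fun τ => ?_
      have h1 := DFunLike.congr_fun hμ τ
      rw [inner_smul_left, ← fderiv_eq_inner]
      simpa using h1
    have hN0 : N ≠ 0 := by
      intro h0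
      apply hν
      have : N.ofLp = 0 := by rw [h0]; rfl
      exact this
    have hμ0 : μ ≠ 0 := by
      rintro rfl
      rw [zero_smul] at hvec
      exact hN0 hvec
    refine ⟨μ⁻¹, inv_ne_zero hμ0, ?_⟩
    have h3 : gradient f x = μ⁻¹ • N := by
      rw [hvec, smul_smul, inv_mul_cancel₀ hμ0, one_smul]
    rw [h3]
    rfl

/-- a reflection step at a point of a mirror is a bounce at the mirror -/
theorem bounce_of (f : EE m → ℝ) (B : Set (EE m)) (hB : IsOpen B) (M : Mir (Fin (m + 2)))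
    (hM : Fits f M B) (x u x' u' : EE m) (hx : x' ∈ B) (hfx : f x' = 0)
    (hf : ContDiffAt ℝ 1 f x') (hg : gradient f x' ≠ 0)
    (ht : ∃ t : ℝ, 0 < t ∧ x' = x + t • u) (hi : inner ℝ u (gradient f x') ≠ 0)
    (hu : u' = u - (2 * inner ℝ u (gradient f x') / ‖gradient f x'‖ ^ 2) • gradient f x') :
    Bounce M x.ofLp u.ofLp x'.ofLp u'.ofLp := by
  obtain ⟨c, hc, hN⟩ := par_normal f B hB M hM x' hx hfx hf hg
  have hn2 : ‖gradient f x'‖ ^ 2 = c ^ 2 * (nrm M x'.ofLp ⬝ᵥ nrm M x'.ofLp) := by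
    rw [← real_inner_self_eq_norm_sq, inner_dot, hN, smul_dotProduct, dotProduct_smul]
    simp only [smul_eq_mul]; ring
  have hin : inner ℝ u (gradient f x') = c * (u.ofLp ⬝ᵥ nrm M x'.ofLp) := by
    rw [inner_dot, hN, dotProduct_smul, smul_eq_mul]
  have hud : u.ofLp ⬝ᵥ nrm M x'.ofLp ≠ 0 := by
    intro h0
    rw [hin, h0, mul_zero] at hi
    exact hi rfl
  have hnn : nrm M x'.ofLp ⬝ᵥ nrm M x'.ofLp ≠ 0 := by
    intro h0
    apply hud
    have : nrm M x'.ofLp = 0 := by
      funext j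
      have h1 : ∑ i, nrm M x'.ofLp i * nrm M x'.ofLp i = 0 := h0
      have h2 := (Finset.sum_eq_zero_iff_of_nonneg (fun i _ => mul_self_nonneg _)).1 h1 j
        (Finset.mem_univ _)
      simpa using h2
    rw [this, dotProduct_zero]
  have hu2 : ∀ j, u'.ofLp j = u.ofLp j - 2 * (u.ofLp ⬝ᵥ nrm M x'.ofLp) /
      (nrm M x'.ofLp ⬝ᵥ nrm M x'.ofLp) * nrm M x'.ofLp j := by
    intro j
    have h1 : u'.ofLp j = u.ofLp j - (2 * inner ℝ u (gradient f x') / ‖gradient f x'‖ ^ 2) *
        (gradient f x').ofLp j := by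
      rw [hu]; rfl
    rw [h1, hn2, hin, hN, Pi.smul_apply, smul_eq_mul]
    field_simp
  obtain ⟨t, ht, hxt⟩ := ht
  cases M with
  | sph C R =>
    obtain ⟨hR, hM⟩ := hM
    have hr := hM x' hx hfx
    refine ⟨hR, t, ht, ?_, hr, ?_, ?_⟩
    · rw [hxt]; rfl
    · rw [dotProduct_comm]; exact hud
    · funext j
      rw [hu2 j]
      unfold srefl
      simp only [nrm]
      rw [hr, dotProduct_comm]
  | pl ν a =>
    obtain ⟨hν, hM⟩ := hM
    refine ⟨hν, t, ht, ?_, hM x' hx hfx, ?_⟩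
    · rw [hxt]; rfl
    · funext j
      rw [hu2 j]
      rfl

/-- a set of phase points of closed orbits whose bounces are at spherical or flat points is null -/
theorem null_orbits (f : EE m → ℝ) (S : Set (EE m × EE m))
    (hS : ∀ q ∈ S, ‖q.2‖ = 1 ∧ ∃ n : ℕ, 1 ≤ n ∧ ∃ p u : ℕ → EE m,
      p 0 = q.1 ∧ u 0 = q.2 ∧ p n = q.1 ∧ u n = q.2 ∧
      (∀ i ≤ n, f (p i) = 0 ∧ inner ℝ (u i) (gradient f (p i)) < 0 ∧ ContDiffAt ℝ 1 f (p i) ∧
        ∃ M : Mir (Fin (m + 2)), ∃ B ∈ nhds (p i), Fits f M B) ∧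
      ∀ i < n, (∃ t : ℝ, 0 < t ∧ p (i + 1) = p i + t • u i) ∧
        u (i + 1) = u i - (2 * inner ℝ (u i) (gradient f (p (i + 1))) /
                ‖gradient f (p (i + 1))‖ ^ 2) • gradient f (p (i + 1))) :
    Measure.hausdorffMeasure (((m + 1) + (m + 1) : ℕ) : ℝ) S = 0 := by
  classical
  set 𝓑 := TopologicalSpace.countableBasis (EE m) with h𝓑
  set ι := {B : Set (EE m) // B ∈ 𝓑 ∧ ∃ M, Fits f M B} with hι
  have hcount : Countable ι := by
    have h1 : Countable 𝓑 := (TopologicalSpace.countable_countableBasis (EE m)).to_subtype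
    exact Function.Injective.countable (f := fun B : {B : Set (EE m) // B ∈ 𝓑 ∧ ∃ M, Fits f M B} =>
      (⟨B.1, B.2.1⟩ : 𝓑)) (fun a b hab => Subtype.ext (congrArg (fun z : 𝓑 => z.1) hab))
  set MM : ι → Mir (Fin (m + 2)) := fun B => B.2.2.choose with hMM
  have hfit : ∀ B : ι, Fits f (MM B) B.1 := fun B => B.2.2.choose_spec
  have hopen : ∀ B : ι, IsOpen B.1 := fun B =>
    (TopologicalSpace.isBasis_countableBasis (EE m)).isOpen B.2.1
  have fits_mono : ∀ (M : Mir (Fin (m + 2))) (A B : Set (EE m)), A ⊆ B → Fits f M B → Fits f M A := by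
    intro M A B hAB h
    cases M with
    | sph c R => exact ⟨h.1, fun y hy => h.2 y (hAB hy)⟩
    | pl ν a => exact ⟨h.1, fun y hy => h.2 y (hAB hy)⟩
  refine measure_mono_null ?_ (phase_null MM)
  rintro ⟨q, v⟩ hq
  obtain ⟨hv, n, hn, p, u, hp0, hu0, hpn, hun, hdata, hstep⟩ := hS _ hq
  simp only at hv hp0 hu0 hpn hun
  have box : ∀ i ≤ n, ∃ B : ι, p i ∈ B.1 := by
    intro i hi
    obtain ⟨_, _, _, M, A, hA, hMA⟩ := hdata i hi
    obtain ⟨B, hB, hxB, hsub⟩ :=
      (TopologicalSpace.isBasis_countableBasis (EE m)).mem_nhds_iff.1 hA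
    exact ⟨⟨B, hB, M, fits_mono M B A hsub hMA⟩, hxB⟩
  have hgne : ∀ i ≤ n, gradient f (p i) ≠ 0 := by
    intro i hi h0
    have := (hdata i hi).2.1
    rw [h0, inner_zero_right] at this
    exact lt_irrefl _ this
  have honsph : ∀ (M : Mir (Fin (m + 2))) (B : Set (EE m)), Fits f M B → ∀ x ∈ B, f x = 0 →
      OnM M x.ofLp := by
    intro M B h x hx hfx
    cases M with
    | sph c R => exact h.2 x hx hfx
    | pl ν a => exact h.2 x hx hfx
  refine ⟨?_, ?_, n, hn, fun i => (p i).ofLp, fun i => (u i).ofLp, ?_, ?_, ?_, ?_, ?_⟩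
  · obtain ⟨B, hB⟩ := box 0 (Nat.zero_le n)
    refine ⟨B, ?_, ?_⟩
    · have := honsph (MM B) B.1 (hfit B) (p 0) hB (hdata 0 (Nat.zero_le n)).1
      rw [hp0] at this
      exact this
    · obtain ⟨c, hc, hN⟩ := par_normal f B.1 (hopen B) (MM B) (hfit B) (p 0) hB
        (hdata 0 (Nat.zero_le n)).1 (hdata 0 (Nat.zero_le n)).2.2.1 (hgne 0 (Nat.zero_le n))
      have h1 := (hdata 0 (Nat.zero_le n)).2.1
      rw [inner_dot, hN, dotProduct_smul, smul_eq_mul, hp0, hu0] at h1
      have h2 : v.ofLp ⬝ᵥ nrm (MM B) q.ofLp ≠ 0 := by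
        intro h0
        rw [h0, mul_zero] at h1
        exact lt_irrefl _ h1
      simp only
      generalize MM B = M at h2
      cases M with
      | sph c R =>
        simp only [TrM]
        rw [dotProduct_comm]; exact h2
      | pl ν a => exact h2
  · have : inner ℝ v v = (1 : ℝ) := by rw [real_inner_self_eq_norm_sq, hv]; norm_num
    rw [inner_dot] at this
    exact this
  · simp only [hp0]
  · simp only [hu0]
  · simp only [hpn]
  · simp only [hun]
  · intro i hi
    obtain ⟨B, hB⟩ := box (i + 1) hi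
    refine ⟨B, bounce_of f B.1 (hopen B) (MM B) (hfit B) (p i) (u i) (p (i + 1)) (u (i + 1)) hB
      (hdata (i + 1) hi).1 (hdata (i + 1) hi).2.2.1 (hgne (i + 1) hi) (hstep i hi).1 ?_
      (hstep i hi).2⟩
    intro h0
    have h1 := (hdata (i + 1) hi).2.1
    rw [(hstep i hi).2, h0, mul_zero, zero_div, zero_smul, sub_zero, h0] at h1
    exact lt_irrefl _ h1

end

end H16R3Round
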